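import Pool.Agent.SSF.StmtsB

/-!
# Squad SSF, part B, row HGS: compact homogeneous spaces
-/

set_option autoImplicit false

open Set Topology

namespace Pool.Agent.SSF.H97

open Pool.Agent.LSG Pool.Agent.LPR Pool.Agent.SSF Pool.Agent.CMG

/-- Row HGS. -/
theorem hgs (eff : EffStmt) (tdx : TdxStmt) (cpx : CpxStmt) (flh : FlhStmt)
    (ncg : Pool.Agent.CMG.NcgStmt) (fsm : FsmStmt) (stl : Pool.Agent.LPR.StlStmt) : HgsStmt := by
  intro G X _ _ _ _ _ _ _ _ _ htr
  obtain ⟨x₀⟩ : Nonempty X := inferInstance
  have hcX : CompactSpace X := by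
    have h1 : Continuous fun g : G => g • x₀ := continuous_id.smul continuous_const
    have h2 : IsCompact (Set.range fun g : G => g • x₀) := isCompact_range h1
    have h3 : (Set.range fun g : G => g • x₀) = Set.univ := by
      rw [Set.range_eq_univ]
      intro y
      obtain ⟨g, hg⟩ := htr x₀ y
      exact ⟨g, hg⟩
    rw [h3] at h2
    exact ⟨h2⟩
  obtain ⟨Q, gQ, tQ, itQ, cQ, mQ, aQ, csQ, heff, htrQ⟩ := eff G X htr
  by_cases hd : TotallyDisconnectedSpace Q
  · have htd : TotallyDisconnectedSpace X := tdx Q X htrQ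
    have hno : ∀ x : X, ¬ IsOpen ({x} : Set X) := by
      intro x hx
      have hall : ∀ y : X, IsOpen ({y} : Set X) := by
        intro y
        obtain ⟨q, hq⟩ := htrQ x y
        have h1 : IsOpen ((Homeomorph.smul q) '' ({x} : Set X)) :=
          (Homeomorph.smul q).isOpenMap _ hx
        rw [Set.image_singleton] at h1
        have h2 : (Homeomorph.smul q) x = y := hq
        rwa [h2] at h1
      have hdis : DiscreteTopology X := discreteTopology_iff_isOpen_singleton.2 hall
      have hfin : Finite X := finite_of_compact_of_discrete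
      exact not_finite X
    have hne : Nonempty X := ⟨x₀⟩
    have hs : SStable X := cpx X hno
    exact ⟨stl X hs, hs⟩
  · obtain ⟨γ, hγ, hadd, hne⟩ := ncg Q hd
    exact fsm X (Or.inr (flh Q X heff htrQ γ hγ hadd hne))

end Pool.Agent.SSF.H97
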